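import Mathlib

/-!
# Total domination versus matching number: three vertices outside triangles

There is a connected graph on nine vertices in which all but three vertices lie in a triangle,
with total domination number five and matching number four.
-/

set_option autoImplicit false

namespace Pool.Agent.Results.MP_7cc4cd_co.ThreeVertices

/-- `S` is a total dominating set of `G`: every vertex has a neighbour in `S`. -/
def IsTotalDominating {V : Type*} (G : SimpleGraph V) (S : Finset V) : Prop :=
  ∀ v, ∃ w ∈ S, G.Adj v w

/-- The total domination number: the least size of a total dominating set. -/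
noncomputable def totalDomNum {V : Type*} (G : SimpleGraph V) : ℕ :=
  sInf {m | ∃ S : Finset V, IsTotalDominating G S ∧ S.card = m}

/-- `M` is a matching of `G`: a set of edges of `G` no two of which share a vertex. -/
def IsMatching {V : Type*} (G : SimpleGraph V) (M : Finset (Sym2 V)) : Prop :=
  (∀ e ∈ M, e ∈ G.edgeSet) ∧ ∀ e ∈ M, ∀ f ∈ M, e ≠ f → ∀ v, ¬ (v ∈ e ∧ v ∈ f)

/-- The matching number: the largest size of a matching. -/
noncomputable def matchingNum {V : Type*} (G : SimpleGraph V) : ℕ :=
  sSup {m | ∃ M : Finset (Sym2 V), IsMatching G M ∧ M.card = m}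

/-- The vertex `v` lies in a triangle of `G`. -/
def InTriangle {V : Type*} (G : SimpleGraph V) (v : V) : Prop :=
  ∃ a b, G.Adj v a ∧ G.Adj v b ∧ G.Adj a b

/-- Edge list. -/
def edges : List (Fin 9 × Fin 9) :=
  [(0, 8), (1, 4), (2, 3), (2, 7), (3, 7), (4, 6), (5, 6), (5, 7), (5, 8), (6, 8)]

/-- The graph. -/
def G : SimpleGraph (Fin 9) := SimpleGraph.fromRel (fun a b => (a, b) ∈ edges)

instance : DecidableRel G.Adj := by
  intro a b
  unfold G
  rw [SimpleGraph.fromRel_adj]
  infer_instance

instance (S : Finset (Fin 9)) : Decidable (IsTotalDominating G S) := by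
  unfold IsTotalDominating
  infer_instance

instance (v : Fin 9) : Decidable (InTriangle G v) := by
  unfold InTriangle
  infer_instance

lemma tds : IsTotalDominating G {4, 5, 6, 7, 8} := by decide +kernel

lemma lower : ∀ S : Finset (Fin 9), IsTotalDominating G S → 5 ≤ S.card := by decide +kernel

lemma totalDomNum_eq : totalDomNum G = 5 := by
  have hne : {m | ∃ S : Finset (Fin 9), IsTotalDominating G S ∧ S.card = m}.Nonempty :=
    ⟨5, {4, 5, 6, 7, 8}, tds, rfl⟩
  apply le_antisymm
  · exact Nat.sInf_le ⟨{4, 5, 6, 7, 8}, tds, rfl⟩
  · obtain ⟨S, hS, hc⟩ := Nat.sInf_mem hne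
    unfold totalDomNum
    rw [← hc]
    exact lower S hS

lemma matching_le (M : Finset (Sym2 (Fin 9))) (hM : IsMatching G M) : M.card ≤ 4 := by
  have h1 : (M.biUnion Sym2.toFinset).card = ∑ e ∈ M, e.toFinset.card := by
    apply Finset.card_biUnion
    intro e he f hf hef
    rw [Function.onFun, Finset.disjoint_left]
    intro v hv hv'
    exact hM.2 e he f hf hef v ⟨Sym2.mem_toFinset.1 hv, Sym2.mem_toFinset.1 hv'⟩
  have h2 : ∀ e ∈ M, e.toFinset.card = 2 := by
    intro e he
    exact Sym2.card_toFinset_of_not_isDiag e (G.not_isDiag_of_mem_edgeSet (hM.1 e he))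
  rw [Finset.sum_congr rfl h2, Finset.sum_const, smul_eq_mul] at h1
  have h3 : (M.biUnion Sym2.toFinset).card ≤ 9 := by
    have := Finset.card_le_univ (M.biUnion Sym2.toFinset)
    simpa using this
  omega

lemma matchingNum_le : matchingNum G ≤ 4 := by
  have hne : {m | ∃ M : Finset (Sym2 (Fin 9)), IsMatching G M ∧ M.card = m}.Nonempty :=
    ⟨0, ∅, ⟨by simp, by simp⟩, rfl⟩
  apply csSup_le hne
  rintro m ⟨M, hM, rfl⟩
  exact matching_le M hM

lemma triangles : (Finset.univ.filter (fun v => ¬ InTriangle G v)).card = 3 := by decide +kernel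

lemma connected : G.Connected := by
  have h : ∀ v : Fin 9, G.Reachable v 6 := by
    have a1 : G.Adj 0 8 := by decide
    have a2 : G.Adj 8 6 := by decide
    have a3 : G.Adj 1 4 := by decide
    have a4 : G.Adj 4 6 := by decide
    have a5 : G.Adj 2 7 := by decide
    have a6 : G.Adj 3 7 := by decide
    have a7 : G.Adj 7 5 := by decide
    have a8 : G.Adj 5 6 := by decide
    intro v
    fin_cases v
    · exact a1.reachable.trans a2.reachable
    · exact a3.reachable.trans a4.reachable
    · exact (a5.reachable.trans a7.reachable).trans a8.reachable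
    · exact (a6.reachable.trans a7.reachable).trans a8.reachable
    · exact a4.reachable
    · exact a8.reachable
    · exact SimpleGraph.Reachable.refl _
    · exact a7.reachable.trans a8.reachable
    · exact a2.reachable
  exact SimpleGraph.Connected.mk (fun u v => (h u).trans (h v).symm)

/-- There is a connected graph on nine vertices in which exactly three vertices do not lie in a
triangle and whose total domination number is larger than its matching number. -/
theorem result : ∃ (G : SimpleGraph (Fin 9)), G.Connected ∧
    {v | ¬ InTriangle G v}.ncard = 3 ∧ totalDomNum G = 5 ∧ matchingNum G ≤ 4 := by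
  refine ⟨G, connected, ?_, totalDomNum_eq, matchingNum_le⟩
  have h : {v | ¬ InTriangle G v} =
      ((Finset.univ.filter (fun v => ¬ InTriangle G v) : Finset (Fin 9)) : Set (Fin 9)) := by
    ext v; simp
  rw [h, Set.ncard_coe_finset]
  exact triangles

end Pool.Agent.Results.MP_7cc4cd_co.ThreeVertices
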